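import Pool.Agent.MP_fcd29e_an.H11.CS

set_option autoImplicit false

open Complex Pool.Agent.MP_fcd29e_an.H11
open scoped ComplexConjugate

namespace Pool.Agent.MP_fcd29e_an.H35

theorem csm_tail (κ C₀ : ℝ) (hκ : 0 < κ) (hC : 0 ≤ C₀) : ∃ r₀ : ℕ, ∀ r ≥ r₀,
    4 * (C₀ * (4 * (r : ℝ) + 1) ^ 48 + 1) * Real.exp (-(r * κ)) ≤ 1 / 64 := by
  obtain ⟨F, hF0, hF⟩ : ∃ F : ℝ, 0 < F ∧ ∀ x : ℝ, 0 ≤ x → x ^ 49 / F ≤ Real.exp x :=
    ⟨(Nat.factorial 49 : ℕ), by exact_mod_cast Nat.factorial_pos 49,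
      fun x hx => Real.pow_div_factorial_le_exp x hx 49⟩
  obtain ⟨D, hD0, hD⟩ : ∃ D : ℝ, 0 ≤ D ∧ ∀ x : ℝ, 1 ≤ x → (4 * x + 1) ^ 48 ≤ D * x ^ 48 :=
    ⟨5 ^ 48, by positivity, fun x hx => by
      rw [← mul_pow]
      exact pow_le_pow_left₀ (by linarith) (by linarith) 48⟩
  obtain ⟨r₀, hr₀⟩ := exists_nat_ge (256 * (C₀ * D + 1) * F / κ ^ 49)
  refine ⟨r₀ + 1, fun r hr => ?_⟩
  have h1 : (1 : ℝ) ≤ r := by exact_mod_cast (show 1 ≤ r by omega)
  have h2 : (r₀ : ℝ) ≤ r := by exact_mod_cast (show r₀ ≤ r by omega)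
  have hk : 0 < κ ^ 49 := pow_pos hκ 49
  have h3 : 256 * (C₀ * D + 1) * F ≤ r * κ ^ 49 := (div_le_iff₀ hk).1 (hr₀.trans h2)
  have h4 := hF (r * κ) (by positivity)
  have h5 : (1 : ℝ) ≤ (r : ℝ) ^ 48 := one_le_pow₀ h1
  have h6 : C₀ * (4 * (r : ℝ) + 1) ^ 48 + 1 ≤ (C₀ * D + 1) * (r : ℝ) ^ 48 := by
    have := mul_le_mul_of_nonneg_left (hD r h1) hC
    nlinarith
  rw [Real.exp_neg, ← div_eq_mul_inv, div_le_iff₀ (Real.exp_pos _)]
  refine le_trans ?_ (mul_le_mul_of_nonneg_left h4 (by norm_num))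
  rw [mul_pow, pow_succ' (r : ℝ) 48, ← mul_div_assoc, le_div_iff₀ hF0]
  have h7 := mul_le_mul_of_nonneg_right h3 (le_trans zero_le_one h5)
  have h8 := mul_le_mul_of_nonneg_right h6 hF0.le
  nlinarith

theorem ssm (hGR : SGR) : SSM := by
  intro η C₀ hη hC
  obtain ⟨r₀, hr₀⟩ := csm_tail (η ^ 2 / 8) C₀ (by positivity) hC
  refine ⟨max r₀ 1280, fun r hr m n c S om hR p hp => ?_⟩
  have hr1 : (1280 : ℝ) ≤ r := by exact_mod_cast (le_max_right _ _).trans hr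
  have htail := hr₀ r ((le_max_left _ _).trans hr)
  have hnp : 0 < nsq p := by
    obtain ⟨k, hk⟩ := Function.ne_iff.1 hp
    exact Finset.sum_pos' (fun _ _ => by positivity)
      ⟨k, Finset.mem_univ k, pow_pos (norm_pos_iff.2 hk) 2⟩
  have hs : 0 < √(nsq p) := Real.sqrt_pos.2 hnp
  obtain ⟨q, hq1, hq⟩ : ∃ q : Fin r → ℂ, nsq q = 1 ∧
      ∀ w, ip p w / (√(nsq p) : ℝ) = ip q w := by
    refine ⟨fun k => p k / (√(nsq p) : ℝ), ?_, fun w => ?_⟩
    · have : ∀ k, ‖p k / ((√(nsq p) : ℝ) : ℂ)‖ ^ 2 = ‖p k‖ ^ 2 / nsq p := fun k => by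
        rw [norm_div, div_pow, Complex.norm_real, Real.norm_of_nonneg hs.le, Real.sq_sqrt hnp.le]
      change ∑ k, ‖p k / ((√(nsq p) : ℝ) : ℂ)‖ ^ 2 = 1
      simp only [this]
      rw [← Finset.sum_div]
      exact div_self hnp.ne'
    · simp only [ip, Finset.sum_div]
      exact Finset.sum_congr rfl fun k _ => by ring
  simp only [psi, lam, hq]
  generalize hl : (r : ℝ) * η / 2 = l
  have e0 : ∑ j, (ip q (om j)).re = 0 := by
    rw [← Complex.re_sum]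
    have : ∑ j, ip q (om j) = 0 := by
      simp only [ip]
      rw [Finset.sum_comm]
      refine Finset.sum_eq_zero fun k _ => ?_
      rw [← Finset.mul_sum, ← map_sum, ← Finset.sum_apply, hR.sum0]
      simp
    rw [this, zero_re]
  have e2 := hR.sum2 q
  rw [hq1, mul_one] at e2
  have a1 := hR.hoef l q 1 hq1 (by simp)
  have a2 := hR.hoef l q (-1) hq1 (by simp)
  have a3 := hR.hoef l q (-I) hq1 (by simp)
  have a4 := hR.hoef l q I hq1 (by simp)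
  simp only [one_mul] at a1
  simp only [neg_mul, one_mul, neg_re, mul_neg] at a2
  simp only [neg_mul, neg_re, mul_re, I_re, I_im, zero_mul, one_mul, zero_sub, neg_neg] at a3
  simp only [mul_re, I_re, I_im, zero_mul, one_mul, zero_sub, mul_neg] at a4
  simp only [Finset.sum_sub_distrib, Finset.sum_add_distrib, ← Finset.mul_sum, e0,
    Finset.sum_const, Finset.card_univ, Fintype.card_fin, nsmul_eq_mul]
  have hm : (0 : ℝ) ≤ m := Nat.cast_nonneg m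
  have hex : Real.exp (-(l * η / 2)) * Real.exp (l ^ 2 / (2 * r)) =
      Real.exp (-(r * (η ^ 2 / 8))) := by
    rw [← Real.exp_add, ← hl]
    congr 1
    field_simp
    ring
  have hCs : 0 ≤ (C₀ * (4 * (r : ℝ) + 1) ^ 48 + 1) * Real.exp (-(l * η / 2)) := by positivity
  have b1 := mul_le_mul_of_nonneg_left (add_le_add (add_le_add (add_le_add a1 a2) a3) a4) hCs
  have b2 : (C₀ * (4 * (r : ℝ) + 1) ^ 48 + 1) * Real.exp (-(l * η / 2)) *
      (m * Real.exp (l ^ 2 / (2 * r)) + m * Real.exp (l ^ 2 / (2 * r)) +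
        m * Real.exp (l ^ 2 / (2 * r)) + m * Real.exp (l ^ 2 / (2 * r))) ≤ m * (1 / 64) := by
    refine le_trans (le_of_eq ?_) (mul_le_mul_of_nonneg_left htail hm)
    rw [← hex]
    ring
  have hT : 0 ≤ ∑ j, ‖ip q (om j)‖ ^ 2 := Finset.sum_nonneg fun _ _ => by positivity
  have b3 := mul_le_mul_of_nonneg_right hR.hc hT
  have b4 := mul_le_mul_of_nonneg_right hr1 hT
  linarith

end Pool.Agent.MP_fcd29e_an.H35
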