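import Pool.Agent.MP_fcd29e_an.H31.Spec3

/-! Geometric sums over dyadic scales. -/

set_option autoImplicit false

open Pool.Agent.MP_fcd29e_an.H31
open scoped ENNReal NNReal

namespace Pool.Agent.MP_fcd29e_an.H35

lemma dy_pos (j : ℕ) : 0 < dy j := by unfold dy; positivity

lemma dy_add (a : ℝ) (i j : ℕ) : dy (i + j) ^ a = dy j ^ a * ((2⁻¹ : ℝ) ^ a) ^ i := by
  have h : dy (i + j) = dy j * 2⁻¹ ^ i := by unfold dy; rw [pow_add, mul_inv, inv_pow, mul_comm]
  rw [h, Real.mul_rpow (dy_pos j).le (by positivity), ← Real.rpow_natCast, ← Real.rpow_natCast,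
    ← Real.rpow_mul (by norm_num), ← Real.rpow_mul (by norm_num), mul_comm a]

lemma dy_anti {i j : ℕ} (h : i ≤ j) : dy j ≤ dy i := by
  unfold dy
  exact inv_anti₀ (by positivity) (pow_le_pow_right₀ one_le_two h)

theorem geo : StmtGEO := by
  intro a ha
  obtain ⟨r, hr⟩ : ∃ r : ℝ, r = (2⁻¹ : ℝ) ^ a := ⟨_, rfl⟩
  have r0 : 0 < r := by rw [hr]; positivity
  have r1 : r < 1 := by rw [hr]; exact Real.rpow_lt_one (by norm_num) (by norm_num) ha
  have fin : (∑' i : ℕ, ENNReal.ofReal r ^ i) ≠ ⊤ := by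
    rw [ENNReal.tsum_geometric]
    exact ENNReal.inv_ne_top.2 (tsub_pos_of_lt (ENNReal.ofReal_lt_one.2 r1)).ne'
  refine ⟨(∑' i : ℕ, ENNReal.ofReal r ^ i).toNNReal, fun x hx => ?_⟩
  rw [ENNReal.coe_toNNReal fin]
  have ex : ∃ j, dy j < x := by
    obtain ⟨j, hj⟩ := exists_pow_lt_of_lt_one hx (by norm_num : (2⁻¹ : ℝ) < 1)
    exact ⟨j, by unfold dy; rwa [← inv_pow]⟩
  constructor
  · have ex' : ∃ j, dy j ≤ x := ex.imp fun j h => h.le
    rw [← ENNReal.summable.sum_add_tsum_nat_add' (k := Nat.find ex'), Finset.sum_eq_zero,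
      zero_add, ← ENNReal.tsum_mul_right]
    · refine ENNReal.tsum_le_tsum fun i => ?_
      split_ifs
      · rw [dy_add, ← hr, ← ENNReal.ofReal_pow r0.le, ← ENNReal.ofReal_mul (by positivity),
          mul_comm]
        refine ENNReal.ofReal_le_ofReal (mul_le_mul_of_nonneg_left ?_ (by positivity))
        exact Real.rpow_le_rpow (dy_pos _).le (Nat.find_spec ex') ha.le
      · exact zero_le
    · intro i hi
      rw [if_neg (Nat.find_min ex' (Finset.mem_range.1 hi))]
  · rw [tsum_eq_sum (s := Finset.range (Nat.find ex)), ← ENNReal.tsum_mul_right]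
    · refine le_trans ?_ (ENNReal.sum_le_tsum (Finset.range (Nat.find ex)))
      rw [← Finset.sum_range_reflect]
      refine Finset.sum_le_sum fun i hi => ?_
      have hi' := Finset.mem_range.1 hi
      split_ifs
      · have h1 : x ≤ dy (i + (Nat.find ex - 1 - i)) :=
          not_lt.1 (Nat.find_min ex (by omega))
        have h2 := dy_add a i (Nat.find ex - 1 - i)
        rw [← hr] at h2
        rw [← ENNReal.ofReal_pow r0.le, ← ENNReal.ofReal_mul (by positivity)]
        refine ENNReal.ofReal_le_ofReal ?_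
        have h3 : x ^ a ≤ dy (Nat.find ex - 1 - i) ^ a * r ^ i :=
          h2 ▸ Real.rpow_le_rpow hx.le h1 ha.le
        have h4 : 0 < dy (Nat.find ex - 1 - i) ^ a := Real.rpow_pos_of_pos (dy_pos _) _
        have h5 : 0 < x ^ a := Real.rpow_pos_of_pos hx _
        rw [Real.rpow_neg (dy_pos _).le, Real.rpow_neg hx.le, ← div_eq_mul_inv, le_div_iff₀ h5,
          inv_mul_le_iff₀ h4]
        exact h3
      · exact zero_le
    · intro j hj
      rw [if_neg]
      have : Nat.find ex ≤ j := by simpa using hj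
      exact not_le.2 ((dy_anti this).trans_lt (Nat.find_spec ex))

end Pool.Agent.MP_fcd29e_an.H35
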